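import Mathlib
import Pool.Agent.Helper606.BlockGraph

set_option autoImplicit false

namespace Pool.Agent.Results.MP_f17e6f_co.LinearGain

open Finset Filter Topology

/-- `KappaLE G x y k` says that the local connectivity of `x` and `y` in `G` is at most `k`:
every set of `x`-`y` paths that pairwise share no vertex other than `x` and `y` has at most
`k` members. -/
def KappaLE {V : Type} (G : SimpleGraph V) (x y : V) (k : ℕ) : Prop :=
  ∀ P : Finset (G.Path x y),
    (∀ p ∈ P, ∀ p' ∈ P, p ≠ p' →
      ∀ v : V, v ∈ p.1.support → v ∈ p'.1.support → v = x ∨ v = y) → P.card ≤ k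

/-- The maximum number of edges of a graph on `n` vertices in which every two distinct
vertices have local connectivity at most `k`. -/
noncomputable def maxEdges (n k : ℕ) : ℕ :=
  sSup {e : ℕ | ∃ (V : Type) (_ : Fintype V) (G : SimpleGraph V), Fintype.card V = n ∧
    (∀ x y : V, x ≠ y → KappaLE G x y k) ∧ G.edgeSet.ncard = e}

section Lemmas

variable {V : Type} {G : SimpleGraph V}

lemma kappa_of_sep {x y : V} {k : ℕ} (S : Finset V) (hx : x ∉ S) (hy : y ∉ S)
    (hS : ∀ p : G.Walk x y, ∃ v ∈ p.support, v ∈ S) (hk : S.card ≤ k) : KappaLE G x y k := by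
  classical
  intro P hP
  have h : ∀ p : G.Path x y, ∃ v, v ∈ p.1.support ∧ v ∈ S := fun p => hS p.1
  choose f hf1 hf2 using h
  refine le_trans ?_ hk
  apply Finset.card_le_card_of_injOn f
  · intro p _
    exact hf2 p
  · intro p hp p' hp' hpp
    by_contra hne
    have h1 := hf1 p
    have h2 := hf1 p'
    rw [← hpp] at h2
    rcases hP p hp p' hp' hne _ h1 h2 with h | h
    · exact hx (h ▸ hf2 p)
    · exact hy (h ▸ hf2 p)

lemma kappa_of_degree {x y : V} {k : ℕ} (hxy : x ≠ y) (N : Finset V)
    (hN : ∀ v, G.Adj x v → v ∈ N) (hk : N.card ≤ k) : KappaLE G x y k := by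
  classical
  intro P hP
  refine le_trans ?_ hk
  apply Finset.card_le_card_of_injOn (fun p => p.1.snd)
  · intro p _
    apply hN
    exact p.1.adj_snd (SimpleGraph.Walk.not_nil_of_ne hxy)
  · intro p hp p' hp' hpp
    by_contra hne
    simp only at hpp
    have hn1 : ¬ p.1.Nil := SimpleGraph.Walk.not_nil_of_ne hxy
    have hn2 : ¬ p'.1.Nil := SimpleGraph.Walk.not_nil_of_ne hxy
    have h1 : p.1.snd ∈ p.1.support := p.1.getVert_mem_support 1
    have h2 : p.1.snd ∈ p'.1.support := by
      rw [hpp]; exact p'.1.getVert_mem_support 1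
    have hadj := p.1.adj_snd hn1
    have key : ∀ r : G.Path x y, r.1.snd = y → ∀ (h : G.Adj x y),
        r.1 = SimpleGraph.Walk.cons h SimpleGraph.Walk.nil := by
      rintro ⟨r, hr⟩ hsnd h
      cases r with
      | nil => exact absurd rfl hxy
      | cons h' r' =>
        simp only [SimpleGraph.Walk.snd_cons] at hsnd
        subst hsnd
        rw [SimpleGraph.Walk.cons_isPath_iff] at hr
        have := SimpleGraph.Walk.eq_nil_iff_nil.2 (SimpleGraph.Walk.isPath_iff_nil.1 hr.1)
        subst this
        rfl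
    rcases hP p hp p' hp' hne _ h1 h2 with h | h
    · exact hadj.ne h.symm
    · have hadj' : G.Adj x y := by rw [h] at hadj; exact hadj
      apply hne
      apply Subtype.ext
      rw [key p h hadj', key p' (hpp ▸ h) hadj']

lemma kappa_symm {x y : V} {k : ℕ} (h : KappaLE G y x k) : KappaLE G x y k := by
  classical
  intro P hP
  have hinj : Function.Injective (SimpleGraph.Path.reverse : G.Path x y → G.Path y x) := by
    intro p p' hpp
    have h1 : p.1.reverse = p'.1.reverse := congrArg Subtype.val hpp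
    have h2 := congrArg SimpleGraph.Walk.reverse h1
    rw [SimpleGraph.Walk.reverse_reverse, SimpleGraph.Walk.reverse_reverse] at h2
    exact Subtype.ext h2
  have h1 := h (P.image SimpleGraph.Path.reverse) (by
    intro p hp p' hp' hne v hv hv'
    rw [mem_image] at hp hp'
    obtain ⟨r, hr, rfl⟩ := hp
    obtain ⟨r', hr', rfl⟩ := hp'
    have hne' : r ≠ r' := fun h => hne (by rw [h])
    simp only [SimpleGraph.Path.reverse_coe, SimpleGraph.Walk.support_reverse,
      List.mem_reverse] at hv hv'
    exact (hP r hr r' hr' hne' v hv hv').symm)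
  rwa [card_image_of_injective _ hinj] at h1

end Lemmas

open Pool.Agent.Helper606.BlockGraph

lemma BG_kappa (t q c r k : ℕ) (hk : (c - 1) + q ≤ k) (hk2 : c + (q - 1) ≤ k)
    (x y : Vx t q c r) (hxy : x ≠ y) : KappaLE (BG t q c r) x y k := by
  classical
  have hsmall : ∀ s τ a i, ∀ z : Vx t q c r, Sum.inl (s, τ, a, i) ≠ z →
      KappaLE (BG t q c r) (Sum.inl (s, τ, a, i)) z k := by
    intro s τ a i z hz
    refine kappa_of_degree hz (nbS s τ a i) (fun v hv => (mem_nbS s τ a i v).2 hv) ?_
    rw [card_nbS]; exact hk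
  have hiso : ∀ j, ∀ z : Vx t q c r, Sum.inr (Sum.inr j) ≠ z →
      KappaLE (BG t q c r) (Sum.inr (Sum.inr j)) z k := by
    intro j z hz
    refine kappa_of_degree hz ∅ (fun v hv => ?_) (by simp)
    rcases v with ⟨s', τ', a', i'⟩ | ⟨τ', a', b'⟩ | j' <;> exact absurd hv id
  rcases x with ⟨s, τ, a, i⟩ | ⟨τ, a, b⟩ | j
  · exact hsmall _ _ _ _ _ hxy
  · rcases y with ⟨s', τ', a', i'⟩ | ⟨τ', a', b'⟩ | j'
    · exact kappa_symm (hsmall _ _ _ _ _ hxy.symm)
    · have hne : (τ, a, b) ≠ (τ', a', b') := by
        intro h; apply hxy; rw [h]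
      obtain ⟨A, S, hxA, hyA, hAS, hyS, hS, hN⟩ := big_sep (c := c) (r := r) τ a b τ' a' b' hne
      refine kappa_of_sep S (fun h => Finset.disjoint_left.1 hAS hxA h) hyS ?_ (hS.trans hk2)
      intro p
      by_contra hcon
      push Not at hcon
      -- a walk that avoids `S` stays in `A`
      have key : ∀ (u v : Vx t q c r) (w : (BG t q c r).Walk u v), u ∈ A →
          (∀ z ∈ w.support, z ∉ S) → v ∈ A := by
        intro u v w
        induction w with
        | nil => intro h _; exact h
        | @cons u v w huv _ ih =>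
          intro hu hw
          rw [SimpleGraph.Walk.support_cons] at hw
          apply ih
          · rcases hN u hu v huv with h | h
            · exact h
            · exfalso
              refine hw v ?_ h
              simp
          · intro z hz
            exact hw z (List.mem_cons_of_mem _ hz)
      exact hyA (key _ _ p hxA hcon)
    · exact kappa_symm (hiso _ _ hxy.symm)
  · exact hiso _ _ hxy

lemma maxEdges_ge {n k : ℕ} {V : Type} [Fintype V] (G : SimpleGraph V)
    (hn : Fintype.card V = n) (hG : ∀ x y : V, x ≠ y → KappaLE G x y k) :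
    G.edgeSet.ncard ≤ maxEdges n k := by
  apply le_csSup
  · refine ⟨n.choose 2, ?_⟩
    rintro e ⟨W, _, H, hW, _, rfl⟩
    classical
    rw [← hW]
    have h2 : H.edgeSet.ncard = H.edgeFinset.card := by
      rw [← SimpleGraph.coe_edgeFinset, Set.ncard_coe_finset]
    rw [h2]
    exact SimpleGraph.card_edgeFinset_le_card_choose_two
  · exact ⟨V, inferInstance, G, hn, hG, rfl⟩

/-- Lower bound with leading constant `4 - 2 √3 > 1/2` for the maximum size of a graph with
maximum local connectivity at most `k`, for every order `n`, and the resulting lower bound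
for the limit of `maxEdges n k / n`. -/
theorem result (k : ℕ) (hk : 1 ≤ k) :
    (∀ n : ℕ, (4 - 2 * Real.sqrt 3) * k * n - 2 * k ^ 3 ≤ (maxEdges n k : ℝ)) ∧
    (∀ L : ℝ, Tendsto (fun n : ℕ => (maxEdges n k : ℝ) / n) atTop (𝓝 L) →
      (4 - 2 * Real.sqrt 3) * k ≤ L) := by
  have h1 : ∀ n : ℕ, (4 - 2 * Real.sqrt 3) * k * n - 2 * k ^ 3 ≤ (maxEdges n k : ℝ) := by
    intro n
    obtain ⟨t, q, c, r, hq, hc, hcq, _, hcard, he, _⟩ := exists_params k n hk
    refine he.trans ?_
    have := maxEdges_ge (BG t q c r) hcard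
      (BG_kappa t q c r k (by omega) (by omega))
    exact_mod_cast this
  refine ⟨h1, ?_⟩
  intro L hL
  -- compare with the sequence `(4 - 2 √3) k - 2 k^3 / n`
  have h2 : Tendsto (fun n : ℕ => (4 - 2 * Real.sqrt 3) * k - 2 * (k : ℝ) ^ 3 / n) atTop
      (𝓝 ((4 - 2 * Real.sqrt 3) * k - 0)) := by
    apply Tendsto.sub tendsto_const_nhds
    exact tendsto_const_div_atTop_nhds_zero_nat _
  rw [sub_zero] at h2
  refine le_of_tendsto_of_tendsto h2 hL ?_
  filter_upwards [eventually_gt_atTop 0] with n hn
  have hn' : (0 : ℝ) < n := by exact_mod_cast hn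
  rw [le_div_iff₀ hn', sub_mul, div_mul_cancel₀ _ hn'.ne']
  exact h1 n

end Pool.Agent.Results.MP_f17e6f_co.LinearGain
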